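import Mathlib

/-!
# Chromatic gap three in `K_5`-free graphs of every large cochromatic number

The Mycielskian raises both the chromatic and the cochromatic number by exactly one, provided that
some optimal partition into homogeneous sets has an independent part, and it keeps the clique
number. Starting from the 13-vertex graph with independence number 2 and clique number 4 one
obtains `K_5`-free graphs `G` with `ζ(G) = k` and `χ(G) = k + 3` for all `k ≥ 4`.
-/

set_option autoImplicit false

namespace Pool.Agent.Results.MP_a38e10_co.GapThree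

open SimpleGraph

/-- A set of vertices is homogeneous if it is independent or a clique. -/
def Homog {V : Type} (G : SimpleGraph V) (S : Set V) : Prop :=
  (∀ x ∈ S, ∀ y ∈ S, ¬ G.Adj x y) ∨ G.IsClique S

/-- The vertex set has a partition into at most `n` homogeneous sets. -/
def CoCol {V : Type} (G : SimpleGraph V) (n : ℕ) : Prop :=
  ∃ c : V → Fin n, ∀ i, Homog G (c ⁻¹' {i})

/-- The cochromatic number `ζ(G)`. -/
noncomputable def cochromatic {V : Type} (G : SimpleGraph V) : ℕ := sInf {n | CoCol G n}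

/-- The Mycielskian of `G`: `none` is the apex, `inl v` the old vertex and `inr v` its copy. -/
def myc {V : Type} (G : SimpleGraph V) : SimpleGraph (Option (V ⊕ V)) where
  Adj x y := match x, y with
    | some (.inl u), some (.inl v) => G.Adj u v
    | some (.inl u), some (.inr v) => G.Adj u v
    | some (.inr u), some (.inl v) => G.Adj u v
    | some (.inr _), some (.inr _) => False
    | none, some (.inr _) => True
    | some (.inr _), none => True
    | none, some (.inl _) => False
    | some (.inl _), none => False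
    | none, none => False
  symm := ⟨by
    rintro (_ | u | u) (_ | v | v) h
    · exact h
    · exact h
    · trivial
    · exact h
    · exact G.adj_symm h
    · exact G.adj_symm h
    · trivial
    · exact G.adj_symm h
    · exact h⟩
  loopless := ⟨by
    rintro (_ | u | u) h
    · exact h
    · exact G.loopless.irrefl _ h
    · exact h⟩

variable {V : Type} {G : SimpleGraph V}

lemma adj_ll {u v : V} : (myc G).Adj (some (.inl u)) (some (.inl v)) ↔ G.Adj u v := Iff.rfl
lemma adj_lr {u v : V} : (myc G).Adj (some (.inl u)) (some (.inr v)) ↔ G.Adj u v := Iff.rfl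
lemma adj_rl {u v : V} : (myc G).Adj (some (.inr u)) (some (.inl v)) ↔ G.Adj u v := Iff.rfl
lemma adj_rr {u v : V} : ¬ (myc G).Adj (some (.inr u)) (some (.inr v)) := fun h => h
lemma adj_nr {v : V} : (myc G).Adj none (some (.inr v)) := trivial
lemma adj_rn {v : V} : (myc G).Adj (some (.inr v)) none := trivial
lemma adj_nl {v : V} : ¬ (myc G).Adj none (some (.inl v)) := fun h => h
lemma adj_ln {v : V} : ¬ (myc G).Adj (some (.inl v)) none := fun h => h

/-- The Mycielskian of a `K_5`-free graph is `K_5`-free. -/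
lemma cliqueFree_myc (h : G.CliqueFree 5) : (myc G).CliqueFree 5 := by
  by_contra hcon
  let f := topEmbeddingOfNotCliqueFree hcon
  have hadj : ∀ i j : Fin 5, i ≠ j → (myc G).Adj (f i) (f j) := fun i j hij =>
    f.map_adj_iff.mpr hij
  have hnone : ∀ i, f i ≠ none := by
    intro i hi
    obtain ⟨j, l, hj, hl, hjl⟩ : ∃ j l : Fin 5, i ≠ j ∧ i ≠ l ∧ j ≠ l := by
      revert i
      intro i _
      fin_cases i
      · exact ⟨1, 2, by decide, by decide, by decide⟩
      · exact ⟨0, 2, by decide, by decide, by decide⟩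
      · exact ⟨0, 1, by decide, by decide, by decide⟩
      · exact ⟨0, 1, by decide, by decide, by decide⟩
      · exact ⟨0, 1, by decide, by decide, by decide⟩
    have h1 := hadj i j hj
    have h2 := hadj i l hl
    have h3 := hadj j l hjl
    rw [hi] at h1 h2
    rcases hfj : f j with _ | u | u
    · rw [hfj] at h1
      exact h1
    · rw [hfj] at h1
      exact adj_nl h1
    · rcases hfl : f l with _ | v | v
      · rw [hfl] at h2
        exact h2
      · rw [hfl] at h2
        exact adj_nl h2
      · rw [hfj, hfl] at h3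
        exact adj_rr h3
  have hex : ∀ i, ∃ v, f i = some (.inl v) ∨ f i = some (.inr v) := by
    intro i
    rcases hfi : f i with _ | u | u
    · exact absurd hfi (hnone i)
    · exact ⟨u, Or.inl rfl⟩
    · exact ⟨u, Or.inr rfl⟩
  choose p hp using hex
  have hpadj : ∀ i j : Fin 5, i ≠ j → G.Adj (p i) (p j) := by
    intro i j hij
    have h1 := hadj i j hij
    rcases hp i with h2 | h2 <;> rcases hp j with h3 | h3 <;> rw [h2, h3] at h1
    · exact h1
    · exact h1
    · exact h1
    · exact absurd h1 adj_rr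
  have hinj : Function.Injective p := by
    intro i j hij
    by_contra hne
    have h1 := hpadj i j hne
    rw [hij] at h1
    exact G.loopless.irrefl _ h1
  exact (not_cliqueFree_iff_top_isContained 5).mpr
    ⟨⟨⟨p, fun {i j} h => hpadj i j h⟩, hinj⟩⟩ h

/-- A partition of the Mycielskian into `n+1` homogeneous sets gives one of `G` into `n` sets. -/
lemma coCol_of_myc {n : ℕ} (h : CoCol (myc G) (n + 1)) : CoCol G n := by
  classical
  obtain ⟨c, hc⟩ := h
  set i₀ := c none with hi₀
  by_cases hA : ∀ x ∈ c ⁻¹' {i₀}, ∀ y ∈ c ⁻¹' {i₀}, ¬ (myc G).Adj x y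
  · -- the part of the apex is independent
    have hr : ∀ v, c (some (.inr v)) ≠ i₀ := by
      intro v hv
      exact hA none (by simp [hi₀]) (some (.inr v)) (by simp [hv]) adj_nr
    let d : V → Fin (n + 1) := fun v => if c (some (.inl v)) = i₀ then c (some (.inr v))
      else c (some (.inl v))
    have hd : ∀ v, d v ≠ i₀ := by
      intro v
      by_cases h : c (some (.inl v)) = i₀
      · simp only [d, h, if_true]
        exact hr v
      · simp only [d, h, if_false]
        exact h
    choose e he using fun v => Fin.exists_succAbove_eq (hd v)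
    refine ⟨e, fun j => ?_⟩
    have hfib : ∀ v, e v = j → (c (some (.inl v)) = i₀.succAbove j ∧ c (some (.inl v)) ≠ i₀) ∨
        (c (some (.inr v)) = i₀.succAbove j ∧ c (some (.inl v)) = i₀) := by
      intro v hv
      have h1 := he v
      rw [hv] at h1
      by_cases h : c (some (.inl v)) = i₀
      · right
        simp only [d, h, if_true] at h1
        exact ⟨h1.symm, h⟩
      · left
        simp only [d, h, if_false] at h1
        exact ⟨h1.symm, h⟩
    rcases hc (i₀.succAbove j) with hI | hC
    · left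
      intro u hu v hv huv
      rcases hfib u hu with hu | hu <;> rcases hfib v hv with hv | hv
      · exact hI _ hu.1 _ hv.1 (adj_ll.mpr huv)
      · exact hI _ hu.1 _ hv.1 (adj_lr.mpr huv)
      · exact hI _ hu.1 _ hv.1 (adj_rl.mpr huv)
      · exact hA _ hu.2 _ hv.2 (adj_ll.mpr huv)
    · right
      intro u hu v hv huv
      rcases hfib u hu with hu | hu <;> rcases hfib v hv with hv | hv
      · exact adj_ll.mp (hC hu.1 hv.1 (by simpa using huv))
      · exact adj_lr.mp (hC hu.1 hv.1 (by simp))
      · exact adj_rl.mp (hC hu.1 hv.1 (by simp))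
      · exact absurd (hC hu.1 hv.1 (by simpa using huv)) adj_rr
  · -- the part of the apex is a clique
    have hC : (myc G).IsClique (c ⁻¹' {i₀}) := (hc i₀).resolve_left hA
    have hl : ∀ v, c (some (.inl v)) ≠ i₀ := by
      intro v hv
      exact adj_nl (hC (show none ∈ c ⁻¹' {i₀} by simp [hi₀])
        (show some (.inl v) ∈ c ⁻¹' {i₀} by simp [hv]) (by simp))
    choose e he using fun v => Fin.exists_succAbove_eq (hl v)
    refine ⟨e, fun j => ?_⟩
    have hfib : ∀ v, e v = j → c (some (.inl v)) = i₀.succAbove j := by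
      intro v hv
      rw [← he v, hv]
    rcases hc (i₀.succAbove j) with hI | hC'
    · left
      intro u hu v hv huv
      exact hI _ (hfib u hu) _ (hfib v hv) (adj_ll.mpr huv)
    · right
      intro u hu v hv huv
      exact adj_ll.mp (hC' (hfib u hu) (hfib v hv) (by simpa using huv))

/-- A partition of `G` into `n` homogeneous sets, one of them independent, gives such a partition
of the Mycielskian into `n+1` sets. -/
lemma coCol_myc {n : ℕ} (h : ∃ c : V → Fin n, (∀ i, Homog G (c ⁻¹' {i})) ∧
      ∃ i, ∀ x ∈ c ⁻¹' {i}, ∀ y ∈ c ⁻¹' {i}, ¬ G.Adj x y) :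
    ∃ c : Option (V ⊕ V) → Fin (n + 1), (∀ i, Homog (myc G) (c ⁻¹' {i})) ∧
      ∃ i, ∀ x ∈ c ⁻¹' {i}, ∀ y ∈ c ⁻¹' {i}, ¬ (myc G).Adj x y := by
  obtain ⟨c, hc, i₁, hi₁⟩ := h
  let c' : Option (V ⊕ V) → Fin (n + 1) := fun x => match x with
    | none => Fin.castSucc i₁
    | some (.inl v) => Fin.castSucc (c v)
    | some (.inr _) => Fin.last n
  have hlast : ∀ x ∈ c' ⁻¹' {Fin.last n}, ∀ y ∈ c' ⁻¹' {Fin.last n}, ¬ (myc G).Adj x y := by
    intro x hx y hy
    rcases x with _ | u | u
    · exact absurd hx (Fin.castSucc_lt_last i₁).ne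
    · exact absurd hx (Fin.castSucc_lt_last (c u)).ne
    · rcases y with _ | v | v
      · exact absurd hy (Fin.castSucc_lt_last i₁).ne
      · exact absurd hy (Fin.castSucc_lt_last (c v)).ne
      · exact adj_rr
  refine ⟨c', fun i => ?_, Fin.last n, hlast⟩
  induction i using Fin.lastCases with
  | last => exact Or.inl hlast
  | cast i =>
    have hl : ∀ v, c' (some (.inl v)) = Fin.castSucc i → c v = i := fun v hv =>
      Fin.castSucc_injective n hv
    by_cases hi : i = i₁
    · left
      subst hi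
      intro x hx y hy
      rcases x with _ | u | u
      · rcases y with _ | v | v
        · exact fun h => h
        · exact adj_nl
        · exact absurd hy (Fin.castSucc_lt_last i).ne'
      · rcases y with _ | v | v
        · exact adj_ln
        · exact fun h => hi₁ u (hl u hx) v (hl v hy) (adj_ll.mp h)
        · exact absurd hy (Fin.castSucc_lt_last i).ne'
      · exact absurd hx (Fin.castSucc_lt_last i).ne'
    · have hx' : ∀ x ∈ c' ⁻¹' {Fin.castSucc i}, ∃ v, x = some (.inl v) ∧ c v = i := by
        intro x hx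
        rcases x with _ | u | u
        · exact absurd (Fin.castSucc_injective n hx).symm hi
        · exact ⟨u, rfl, hl u hx⟩
        · exact absurd hx (Fin.castSucc_lt_last i).ne'
      rcases hc i with hI | hC
      · left
        intro x hx y hy h
        obtain ⟨u, rfl, hu⟩ := hx' x hx
        obtain ⟨v, rfl, hv⟩ := hx' y hy
        exact hI u hu v hv (adj_ll.mp h)
      · right
        intro x hx y hy hxy
        obtain ⟨u, rfl, hu⟩ := hx' x hx
        obtain ⟨v, rfl, hv⟩ := hx' y hy
        exact adj_ll.mpr (hC hu hv (by simpa using hxy))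

lemma colorable_of_myc {n : ℕ} (h : (myc G).Colorable (n + 1)) : G.Colorable n := by
  classical
  obtain ⟨c⟩ := h
  set i₀ := c none with hi₀
  have hr : ∀ v, c (some (.inr v)) ≠ i₀ := fun v => (c.valid (adj_nr (G := G) (v := v))).symm
  let d : V → Fin (n + 1) := fun v => if c (some (.inl v)) = i₀ then c (some (.inr v))
    else c (some (.inl v))
  have hd : ∀ v, d v ≠ i₀ := by
    intro v
    by_cases h : c (some (.inl v)) = i₀
    · simp only [d, h, if_true]
      exact hr v
    · simp only [d, h, if_false]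
      exact h
  choose e he using fun v => Fin.exists_succAbove_eq (hd v)
  refine ⟨SimpleGraph.Coloring.mk e ?_⟩
  intro u v huv heq
  have h1 : d u = d v := by rw [← he u, ← he v, heq]
  by_cases hu : c (some (.inl u)) = i₀ <;> by_cases hv : c (some (.inl v)) = i₀
  · exact c.valid (adj_ll.mpr huv) (hu.trans hv.symm)
  · simp only [d, hu, hv, if_true, if_false] at h1
    exact c.valid (adj_rl.mpr huv) h1
  · simp only [d, hu, hv, if_true, if_false] at h1
    exact c.valid (adj_lr.mpr huv) h1
  · simp only [d, hu, hv, if_false] at h1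
    exact c.valid (adj_ll.mpr huv) h1

lemma colorable_myc {n : ℕ} (hn : 0 < n) (h : G.Colorable n) : (myc G).Colorable (n + 1) := by
  obtain ⟨c⟩ := h
  let c' : Option (V ⊕ V) → Fin (n + 1) := fun x => match x with
    | none => Fin.castSucc ⟨0, hn⟩
    | some (.inl v) => Fin.castSucc (c v)
    | some (.inr _) => Fin.last n
  refine ⟨SimpleGraph.Coloring.mk c' ?_⟩
  intro x y hxy
  rcases x with _ | u | u <;> rcases y with _ | v | v
  · exact absurd hxy (fun h => h)
  · exact absurd hxy adj_nl
  · exact (Fin.castSucc_lt_last _).ne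
  · exact absurd hxy adj_ln
  · exact fun h => c.valid (adj_ll.mp hxy) (Fin.castSucc_injective n h)
  · exact (Fin.castSucc_lt_last _).ne
  · exact (Fin.castSucc_lt_last _).ne'
  · exact (Fin.castSucc_lt_last _).ne'
  · exact absurd hxy adj_rr

/-! ### The graph on 13 vertices -/

/-- The complement of the cyclic graph on `ℤ/13` with connection set `{1, 5, 8, 12}`. -/
def G13 : SimpleGraph (Fin 13) where
  Adj x y := (y - x).val ∈ ([2, 3, 4, 6, 7, 9, 10, 11] : List ℕ)
  symm := ⟨by decide⟩
  loopless := ⟨by decide⟩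

instance : DecidableRel G13.Adj := fun x y =>
  inferInstanceAs (Decidable ((y - x).val ∈ ([2, 3, 4, 6, 7, 9, 10, 11] : List ℕ)))

lemma G13_alpha : ∀ a b c : Fin 13, a < b → b < c →
    G13.Adj a b ∨ G13.Adj a c ∨ G13.Adj b c := by decide +kernel

lemma G13_omega : ∀ a b : Fin 13, (a < b ∧ G13.Adj a b) →
    ∀ c, (b < c ∧ G13.Adj a c ∧ G13.Adj b c) →
    ∀ d, (c < d ∧ G13.Adj a d ∧ G13.Adj b d ∧ G13.Adj c d) →
    ∀ e, ¬ (d < e ∧ G13.Adj a e ∧ G13.Adj b e ∧ G13.Adj c e ∧ G13.Adj d e) := by decide +kernel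

/-- An independent set of `G13` has at most 2 elements. -/
lemma indep_card (S : Finset (Fin 13)) (h : ∀ x ∈ S, ∀ y ∈ S, ¬ G13.Adj x y) : S.card ≤ 2 := by
  by_contra hcon
  push Not at hcon
  let f := S.orderEmbOfFin rfl
  have hf : ∀ i, f i ∈ S := fun i => S.orderEmbOfFin_mem rfl i
  have h1 : f ⟨0, by omega⟩ < f ⟨1, by omega⟩ := f.strictMono (by simp)
  have h2 : f ⟨1, by omega⟩ < f ⟨2, by omega⟩ := f.strictMono (by simp)
  rcases G13_alpha _ _ _ h1 h2 with h3 | h3 | h3
  · exact h _ (hf _) _ (hf _) h3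
  · exact h _ (hf _) _ (hf _) h3
  · exact h _ (hf _) _ (hf _) h3

/-- A clique of `G13` has at most 4 elements. -/
lemma clique_card (S : Finset (Fin 13)) (h : G13.IsClique S) : S.card ≤ 4 := by
  by_contra hcon
  push Not at hcon
  let f := S.orderEmbOfFin rfl
  have hf : ∀ i, f i ∈ S := fun i => S.orderEmbOfFin_mem rfl i
  have hlt : ∀ i j : Fin S.card, i < j → f i < f j := fun i j hij => f.strictMono hij
  have hadj : ∀ i j : Fin S.card, i < j → G13.Adj (f i) (f j) := fun i j hij =>
    h (hf i) (hf j) (hlt i j hij).ne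
  have o : ∀ a b : ℕ, ∀ (ha : a < S.card) (hb : b < S.card), a < b →
      (⟨a, ha⟩ : Fin S.card) < ⟨b, hb⟩ := fun a b ha hb hab => hab
  have H : ∀ a b : ℕ, ∀ (ha : a < S.card) (hb : b < S.card), a < b →
      f ⟨a, ha⟩ < f ⟨b, hb⟩ ∧ G13.Adj (f ⟨a, ha⟩) (f ⟨b, hb⟩) := fun a b ha hb hab =>
    ⟨hlt _ _ (o a b ha hb hab), hadj _ _ (o a b ha hb hab)⟩
  have h0 : 0 < S.card := by omega
  have h1 : 1 < S.card := by omega
  have h2 : 2 < S.card := by omega
  have h3 : 3 < S.card := by omega
  have h4 : 4 < S.card := by omega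
  exact G13_omega (f ⟨0, h0⟩) (f ⟨1, h1⟩) (H 0 1 h0 h1 (by norm_num))
    (f ⟨2, h2⟩) ⟨(H 1 2 h1 h2 (by norm_num)).1, (H 0 2 h0 h2 (by norm_num)).2,
      (H 1 2 h1 h2 (by norm_num)).2⟩
    (f ⟨3, h3⟩) ⟨(H 2 3 h2 h3 (by norm_num)).1, (H 0 3 h0 h3 (by norm_num)).2,
      (H 1 3 h1 h3 (by norm_num)).2, (H 2 3 h2 h3 (by norm_num)).2⟩
    (f ⟨4, h4⟩) ⟨(H 3 4 h3 h4 (by norm_num)).1, (H 0 4 h0 h4 (by norm_num)).2,
      (H 1 4 h1 h4 (by norm_num)).2, (H 2 4 h2 h4 (by norm_num)).2,
      (H 3 4 h3 h4 (by norm_num)).2⟩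

lemma G13_cliqueFree : G13.CliqueFree 5 := by
  intro S hS
  have := clique_card S hS.isClique
  rw [hS.card_eq] at this
  omega

/-- pigeonhole -/
lemma big_fibre {n m : ℕ} (c : Fin 13 → Fin n) (h : n * m < 13) :
    ∃ i, m < (Finset.univ.filter (fun x => c x = i)).card := by
  have := Fintype.exists_lt_card_fiber_of_mul_lt_card (f := c) (n := m) (by simpa using h)
  simpa using this

lemma not_six : ¬ G13.Colorable 6 := by
  rintro ⟨c⟩
  obtain ⟨i, hi⟩ := big_fibre (n := 6) (m := 2) c (by norm_num)
  have := indep_card (Finset.univ.filter (fun x => c x = i)) (by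
    intro x hx y hy hxy
    rw [Finset.mem_filter] at hx hy
    exact c.valid hxy (hx.2.trans hy.2.symm))
  omega

lemma not_three : ¬ CoCol G13 3 := by
  rintro ⟨c, hc⟩
  obtain ⟨i, hi⟩ := big_fibre (n := 3) (m := 4) c (by norm_num)
  rcases hc i with h | h
  · have := indep_card (Finset.univ.filter (fun x => c x = i)) (by
      intro x hx y hy
      rw [Finset.mem_filter] at hx hy
      exact h x hx.2 y hy.2)
    omega
  · have := clique_card (Finset.univ.filter (fun x => c x = i)) (by
      intro x hx y hy hxy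
      simp only [Finset.coe_filter, Finset.mem_univ, true_and, Set.mem_ofPred_eq] at hx hy
      exact h hx hy hxy)
    omega

/-- a proper 7-colouring -/
def col7 : Fin 13 → Fin 7 := ![0, 0, 1, 1, 2, 2, 3, 3, 4, 4, 5, 5, 6]

/-- a partition into three cliques and a single vertex -/
def part4 : Fin 13 → Fin 4 := ![0, 1, 0, 1, 0, 2, 0, 2, 3, 2, 1, 2, 1]

lemma seven : G13.Colorable 7 := by
  have h : ∀ x y : Fin 13, G13.Adj x y → col7 x ≠ col7 y := by decide +kernel
  exact ⟨SimpleGraph.Coloring.mk col7 (fun {x y} hxy => h x y hxy)⟩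

lemma part4_homog : (∀ i, Homog G13 (part4 ⁻¹' {i})) ∧
    ∃ i, ∀ x ∈ part4 ⁻¹' {i}, ∀ y ∈ part4 ⁻¹' {i}, ¬ G13.Adj x y := by
  have h : ∀ x y : Fin 13, part4 x = part4 y → x ≠ y → G13.Adj x y := by decide +kernel
  have h3 : ∀ x y : Fin 13, part4 x = 3 → part4 y = 3 → ¬ G13.Adj x y := by decide +kernel
  refine ⟨fun i => Or.inr ?_, 3, fun x hx y hy => h3 x y hx hy⟩
  intro x hx y hy hxy
  exact h x y (Eq.trans hx (Eq.symm hy)) hxy

lemma CoCol.mono {n m : ℕ} (hnm : n ≤ m) (h : CoCol G n) : CoCol G m := by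
  obtain ⟨c, hc⟩ := h
  refine ⟨fun v => Fin.castLE hnm (c v), fun i => ?_⟩
  by_cases hi : ∃ j, Fin.castLE hnm j = i
  · obtain ⟨j, rfl⟩ := hi
    have e : (fun v => Fin.castLE hnm (c v)) ⁻¹' {Fin.castLE hnm j} = c ⁻¹' {j} := by
      ext v
      simp [Fin.ext_iff]
    rw [e]
    exact hc j
  · left
    intro x hx
    exact absurd ⟨c x, hx⟩ hi

lemma cochromatic_eq {n : ℕ} (h1 : CoCol G (n + 1)) (h2 : ¬ CoCol G n) :
    cochromatic G = n + 1 := by
  unfold cochromatic
  apply le_antisymm
  · exact Nat.sInf_le h1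
  · by_contra hlt
    push Not at hlt
    have h3 : CoCol G (sInf {n | CoCol G n}) := Nat.sInf_mem (s := {n | CoCol G n}) ⟨_, h1⟩
    exact h2 (h3.mono (by omega))

lemma chromatic_eq {n : ℕ} (h1 : G.Colorable (n + 1)) (h2 : ¬ G.Colorable n) :
    G.chromaticNumber = ((n + 1 : ℕ) : ℕ∞) := by
  apply le_antisymm
  · exact SimpleGraph.chromaticNumber_le_iff_colorable.mpr h1
  · rw [SimpleGraph.le_chromaticNumber_iff_colorable]
    intro m hm
    by_contra hlt
    exact h2 (hm.mono (by omega))

/-- The graphs, by iterating the Mycielskian. -/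
lemma main (k : ℕ) : ∃ (V : Type) (_ : Finite V) (G : SimpleGraph V), G.CliqueFree 5 ∧
    (∃ c : V → Fin (k + 4), (∀ i, Homog G (c ⁻¹' {i})) ∧
      ∃ i, ∀ x ∈ c ⁻¹' {i}, ∀ y ∈ c ⁻¹' {i}, ¬ G.Adj x y) ∧
    ¬ CoCol G (k + 3) ∧ G.Colorable (k + 7) ∧ ¬ G.Colorable (k + 6) := by
  induction k with
  | zero =>
    exact ⟨Fin 13, inferInstance, G13, G13_cliqueFree, ⟨part4, part4_homog⟩, not_three, seven,
      not_six⟩
  | succ k ih =>
    obtain ⟨V, hV, G, h1, h2, h3, h4, h5⟩ := ih
    refine ⟨Option (V ⊕ V), inferInstance, myc G, cliqueFree_myc h1, ?_, ?_, ?_, ?_⟩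
    · have := coCol_myc h2
      have e : k + 1 + 4 = k + 4 + 1 := by omega
      rw [e]
      exact this
    · have e : k + 1 + 3 = k + 3 + 1 := by omega
      rw [e]
      exact fun h => h3 (coCol_of_myc h)
    · have e : k + 1 + 7 = k + 7 + 1 := by omega
      rw [e]
      exact colorable_myc (by omega) h4
    · have e : k + 1 + 6 = k + 6 + 1 := by omega
      rw [e]
      exact fun h => h5 (colorable_of_myc h)

/-- **Theorem.** For every `k ≥ 4` there is a finite graph `G` without `K_5` with
`ζ(G) = k` and `χ(G) = k + 3`. -/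
theorem result (k : ℕ) (hk : 4 ≤ k) : ∃ (n : ℕ) (G : SimpleGraph (Fin n)), G.CliqueFree 5 ∧
    cochromatic G = k ∧ G.chromaticNumber = ((k + 3 : ℕ) : ℕ∞) := by
  obtain ⟨j, rfl⟩ : ∃ j, k = j + 4 := ⟨k - 4, by omega⟩
  obtain ⟨V, hV, G, h1, ⟨c, h2, _⟩, h3, h4, h5⟩ := main j
  let e := Finite.equivFin V
  refine ⟨Nat.card V, G.comap e.symm, ?_, ?_, ?_⟩
  · exact h1.comap (SimpleGraph.Iso.comap e.symm G).toEmbedding.isContained
  · have hiso : ∀ n, CoCol (G.comap e.symm) n ↔ CoCol G n := by
      intro n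
      constructor
      · rintro ⟨c, hc⟩
        refine ⟨c ∘ e, fun i => ?_⟩
        rcases hc i with h | h
        · left
          intro x hx y hy hxy
          exact h (e x) hx (e y) hy (by simpa using hxy)
        · right
          intro x hx y hy hxy
          have := h (show e x ∈ c ⁻¹' {i} from hx) (show e y ∈ c ⁻¹' {i} from hy)
            (by simpa using hxy)
          simpa using this
      · rintro ⟨c, hc⟩
        refine ⟨c ∘ e.symm, fun i => ?_⟩
        rcases hc i with h | h
        · left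
          intro x hx y hy hxy
          exact h (e.symm x) hx (e.symm y) hy hxy
        · right
          intro x hx y hy hxy
          exact h (show e.symm x ∈ c ⁻¹' {i} from hx) (show e.symm y ∈ c ⁻¹' {i} from hy)
            (by simpa using hxy)
    exact cochromatic_eq ((hiso _).mpr ⟨c, h2⟩) (fun h => h3 ((hiso _).mp h))
  · have hiso := SimpleGraph.Iso.comap e.symm G
    exact chromatic_eq (n := j + 6) (h4.of_hom hiso.toHom) (fun h => h5 (h.of_hom hiso.symm.toHom))

end Pool.Agent.Results.MP_a38e10_co.GapThree
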